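import Mathlib

set_option autoImplicit false

open scoped NNReal Topology Uniformity
open Filter

namespace Pool.Agent.MP_07c133_an

/-! ### Nuclear spaces (Grothendieck) -/

/-- The vector space `E` equipped with the single seminorm `p`. -/
def SemiSpace {E : Type*} [AddCommGroup E] [Module ℂ E] (_p : Seminorm ℂ E) : Type _ := E

section
variable {E : Type*} [AddCommGroup E] [Module ℂ E]

noncomputable instance (p : Seminorm ℂ E) : SeminormedAddCommGroup (SemiSpace p) :=
  p.toAddGroupSeminorm.toSeminormedAddCommGroup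

noncomputable instance (p : Seminorm ℂ E) : NormedSpace ℂ (SemiSpace p) where
  toModule := inferInstanceAs (Module ℂ E)
  norm_smul_le a b := le_of_eq (map_smul_eq_mul p a b)

/-- The identity map `E → (E, p)`. -/
def toSemi (p : Seminorm ℂ E) (x : E) : SemiSpace p := x

/-- The local Banach space of the seminorm `p`: the completion of `(E, p)` (equivalently of the
normed space `E / ker p`). -/
abbrev LocalBanach (p : Seminorm ℂ E) : Type _ := UniformSpace.Completion (SemiSpace p)

end

/-- Nuclear maps between Banach spaces: `T = ∑ fₙ ⊗ yₙ` with `∑ ‖fₙ‖ ‖yₙ‖ < ∞`. -/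
def IsNuclearMap {F G : Type*} [NormedAddCommGroup F] [NormedSpace ℂ F] [NormedAddCommGroup G]
    [NormedSpace ℂ G] (T : F →L[ℂ] G) : Prop :=
  ∃ (f : ℕ → (F →L[ℂ] ℂ)) (y : ℕ → G), Summable (fun n => ‖f n‖ * ‖y n‖) ∧
    ∀ x, HasSum (fun n => f n x • y n) (T x)

/-- A locally convex space is nuclear if for every continuous seminorm `p` there is a continuous
seminorm `q ≥ p` such that the canonical map `T` between the local Banach spaces of `q` and `p`
(the continuous linear map that extends the identity of `E`) is nuclear. -/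
def IsNuclearSpace (E : Type*) [AddCommGroup E] [Module ℂ E] [TopologicalSpace E] : Prop :=
  ∀ p : Seminorm ℂ E, Continuous p → ∃ q : Seminorm ℂ E, Continuous q ∧ p ≤ q ∧
    ∃ T : LocalBanach q →L[ℂ] LocalBanach p,
      (∀ x : E, T (toSemi q x : LocalBanach q) = (toSemi p x : LocalBanach p)) ∧ IsNuclearMap T

/-! ### Fréchet bimodules and approximate contractibility -/

/-- Complex Fréchet spaces: complete, Hausdorff, metrizable, locally convex (the topology is given
by a family of seminorms) topological vector spaces. -/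
class IsFrechetSpace (X : Type*) [AddCommGroup X] [Module ℂ X] [UniformSpace X] : Prop where
  add : IsUniformAddGroup X
  smul : ContinuousSMul ℂ X
  t2 : T2Space X
  metrizable : (𝓤 X).IsCountablyGenerated
  complete : CompleteSpace X
  locallyConvex : PolynormableSpace ℂ X

/-- An `A`-bimodule structure on `X` with jointly continuous actions; `l a x = a · x` and
`r a x = x · a`. -/
structure BimoduleStr (A X : Type*) [NonUnitalRing A] [Module ℂ A] [TopologicalSpace A]
    [AddCommGroup X] [Module ℂ X] [TopologicalSpace X] where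
  l : A →ₗ[ℂ] X →ₗ[ℂ] X
  r : A →ₗ[ℂ] X →ₗ[ℂ] X
  l_cont : Continuous fun z : A × X => l z.1 z.2
  r_cont : Continuous fun z : A × X => r z.1 z.2
  l_mul : ∀ a b x, l (a * b) x = l a (l b x)
  r_mul : ∀ a b x, r (a * b) x = r b (r a x)
  l_r : ∀ a b x, r b (l a x) = l a (r b x)

/-- `A` is approximately contractible: every continuous derivation `D` into a Fréchet
`A`-bimodule `X` is the pointwise limit of a net of inner derivations `a ↦ a · x - x · a`. -/
def ApproxContractible.{u} (A : Type) [NonUnitalRing A] [Module ℂ A] [TopologicalSpace A] :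
    Prop :=
  ∀ (X : Type u) [AddCommGroup X] [Module ℂ X] [UniformSpace X] [IsFrechetSpace X]
    (M : BimoduleStr A X) (D : A →ₗ[ℂ] X), Continuous D →
    (∀ a b, D (a * b) = M.l a (D b) + M.r b (D a)) →
    ∃ (ι : Type) (_ : Preorder ι) (_ : IsDirected ι (· ≤ ·)) (_ : Nonempty ι) (x : ι → X),
      ∀ a, Tendsto (fun i => M.l a (x i) - M.r a (x i)) atTop (𝓝 (D a))

/-! ### Köthe spaces and Köthe algebras -/

variable {I : Type}

/-- Köthe sets on `I`. -/
structure IsKotheSet (P : Set (I → ℝ≥0)) : Prop where
  countable : P.Countable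
  pos : ∀ i, ∃ p ∈ P, 0 < p i
  directed : ∀ p ∈ P, ∀ q ∈ P, ∃ r ∈ P, ∀ i, max (p i) (q i) ≤ r i

/-- The Köthe space `λ(P)`. -/
def kothe (P : Set (I → ℝ≥0)) : Submodule ℂ (I → ℂ) where
  carrier := {x | ∀ p ∈ P, Summable fun i => ‖x i‖ * (p i : ℝ)}
  zero_mem' := by
    intro p _
    simp
  add_mem' := by
    intro x y hx hy p hp
    refine Summable.of_nonneg_of_le (fun i => by positivity) (fun i => ?_)
      ((hx p hp).add (hy p hp))
    rw [← add_mul]
    exact mul_le_mul_of_nonneg_right (norm_add_le _ _) (p i).2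
  smul_mem' := by
    intro c x hx p hp
    have : (fun i => ‖(c • x) i‖ * (p i : ℝ)) = fun i => ‖c‖ * (‖x i‖ * (p i : ℝ)) := by
      funext i
      rw [Pi.smul_apply, norm_smul, mul_assoc]
    rw [this]
    exact (hx p hp).mul_left _

/-- `λ(P)` is a Köthe algebra if it is closed under pointwise multiplication. -/
def IsKotheAlgebra (P : Set (I → ℝ≥0)) : Prop :=
  ∀ x ∈ kothe P, ∀ y ∈ kothe P, x * y ∈ kothe P

/-- `λ(P)` as a subalgebra of the algebra of all functions on `I`. -/
def kotheSubalgebra (P : Set (I → ℝ≥0)) (h : IsKotheAlgebra P) :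
    NonUnitalSubalgebra ℂ (I → ℂ) :=
  { kothe P with mul_mem' := fun {a b} ha hb => h a ha b hb }

/-- The Köthe algebra `λ(P)` with pointwise operations. -/
def KotheAlgebra (P : Set (I → ℝ≥0)) (h : IsKotheAlgebra P) : Type :=
  ↥(kotheSubalgebra P h)

namespace KotheAlgebra

variable (P : Set (I → ℝ≥0)) (h : IsKotheAlgebra P)

noncomputable instance : NonUnitalCommRing (KotheAlgebra P h) :=
  NonUnitalSubalgebra.toNonUnitalCommRing (kotheSubalgebra P h)

noncomputable instance : Module ℂ (KotheAlgebra P h) :=
  NonUnitalSubalgebra.instModule (S := kotheSubalgebra P h)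

/-- The seminorms `‖x‖_p = ∑ |x_i| p_i` of the Köthe algebra. -/
noncomputable def sem : SeminormFamily ℂ (KotheAlgebra P h) P := fun p =>
  Seminorm.of (fun x => ∑' i, ‖x.1 i‖ * (p.1 i : ℝ))
    (by
      intro x y
      have hx := x.2 p.1 p.2
      have hy := y.2 p.1 p.2
      rw [← hx.tsum_add hy]
      refine Summable.tsum_le_tsum (fun i => ?_) ((x + y).2 p.1 p.2) (hx.add hy)
      rw [← add_mul]
      exact mul_le_mul_of_nonneg_right (norm_add_le _ _) (p.1 i).2)
    (by
      intro c x
      rw [← tsum_mul_left]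
      congr 1
      funext i
      show ‖c • x.1 i‖ * (p.1 i : ℝ) = _
      rw [norm_smul, mul_assoc])

/-- The locally convex topology given by the seminorms `‖·‖_p`, `p ∈ P`. -/
noncomputable instance : TopologicalSpace (KotheAlgebra P h) :=
  (sem P h).moduleFilterBasis.topology

end KotheAlgebra

end Pool.Agent.MP_07c133_an
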