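import Pool.Agent.MP_07c133_an.Defs

set_option autoImplicit false

open scoped NNReal Topology Uniformity
open Filter

namespace Pool.Agent.MP_07c133_an

/-- the fast growing sequence of weights -/
def w : ℕ → ℕ
  | 0 => 2
  | n + 1 => w n ^ (2 * n + 2)

theorem w_ge (n : ℕ) : (n + 1) ^ 2 ≤ w n := by
  induction n with
  | zero => simp [w]
  | succ n ih =>
    rcases n with _ | n
    · simp [w]
    · have h1 : w (n + 1 + 1) = w (n + 1) ^ (2 * (n + 1) + 2) := rfl
      rw [h1]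
      have h2 : 1 ≤ w (n + 1) := le_trans (Nat.one_le_pow _ _ (by omega)) ih
      calc (n + 1 + 1 + 1) ^ 2 ≤ ((n + 1 + 1) ^ 2) ^ 2 :=
            Nat.pow_le_pow_left (by nlinarith) 2
        _ ≤ w (n + 1) ^ 2 := Nat.pow_le_pow_left ih 2
        _ ≤ w (n + 1) ^ (2 * (n + 1) + 2) := Nat.pow_le_pow_right h2 (by omega)

theorem w_pos (n : ℕ) : 1 ≤ w n := le_trans (Nat.one_le_pow _ _ (by omega)) (w_ge n)

theorem w_mono : Monotone w := by
  apply monotone_nat_of_le_succ
  intro n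
  show w n ≤ w n ^ (2 * n + 2)
  exact Nat.le_self_pow (by omega) _

theorem w_sum (n : ℕ) : (n + 1) * ∑ l ∈ Finset.range (n + 1), w l ^ (l + (n + 1)) ≤ w (n + 1) := by
  have h1 : ∑ l ∈ Finset.range (n + 1), w l ^ (l + (n + 1)) ≤ (n + 1) * w n ^ (2 * n + 1) := by
    calc ∑ l ∈ Finset.range (n + 1), w l ^ (l + (n + 1))
        ≤ ∑ l ∈ Finset.range (n + 1), w n ^ (2 * n + 1) := by
          apply Finset.sum_le_sum
          intro l hl
          rw [Finset.mem_range] at hl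
          calc w l ^ (l + (n + 1)) ≤ w n ^ (l + (n + 1)) :=
                Nat.pow_le_pow_left (w_mono (by omega)) _
            _ ≤ w n ^ (2 * n + 1) := Nat.pow_le_pow_right (w_pos n) (by omega)
      _ = (n + 1) * w n ^ (2 * n + 1) := by simp
  calc (n + 1) * ∑ l ∈ Finset.range (n + 1), w l ^ (l + (n + 1))
      ≤ (n + 1) * ((n + 1) * w n ^ (2 * n + 1)) := Nat.mul_le_mul_left _ h1
    _ = (n + 1) ^ 2 * w n ^ (2 * n + 1) := by ring
    _ ≤ w n * w n ^ (2 * n + 1) := Nat.mul_le_mul_right _ (w_ge n)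
    _ = w (n + 1) := by
      show _ = w n ^ (2 * n + 2)
      ring

/-- index set -/
abbrev Idx : Type := Σ n : ℕ, Fin (w n ^ n)

/-- weights -/
noncomputable def wt (k : ℕ) : Idx → ℝ≥0 := fun i => (w i.1 : ℝ≥0) ^ k

theorem wt_coe (k : ℕ) (i : Idx) : ((wt k i : ℝ≥0) : ℝ) = (w i.1 : ℝ) ^ k := by
  simp [wt]

/-- the Köthe set -/
def PP : Set (Idx → ℝ≥0) := Set.range wt

theorem wt_mem (k : ℕ) : wt k ∈ PP := ⟨k, rfl⟩

theorem wt_mono {k l : ℕ} (h : k ≤ l) (i : Idx) : wt k i ≤ wt l i := by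
  have h1 : (1 : ℝ≥0) ≤ (w i.1 : ℝ≥0) := by exact_mod_cast w_pos i.1
  exact pow_le_pow_right₀ h1 h

theorem isKotheSet : IsKotheSet PP where
  countable := Set.countable_range _
  pos i := ⟨wt 0, wt_mem 0, by simp [wt]⟩
  directed := by
    rintro p ⟨k, rfl⟩ q ⟨l, rfl⟩
    exact ⟨wt (max k l), wt_mem _, fun i =>
      max_le (wt_mono (le_max_left _ _) i) (wt_mono (le_max_right _ _) i)⟩

theorem isKotheAlgebra : IsKotheAlgebra PP := by
  rintro x hx y hy p ⟨k, rfl⟩
  have h0 := hy (wt 0) (wt_mem 0)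
  have hk := hx (wt k) (wt_mem k)
  have hb : ∀ i, ‖y i‖ ≤ ∑' j, ‖y j‖ * (wt 0 j : ℝ) := by
    intro i
    have := h0.le_tsum i (fun j _ => by positivity)
    simpa [wt] using this
  refine Summable.of_nonneg_of_le (fun i => by positivity) (fun i => ?_)
    (hk.mul_left (∑' j, ‖y j‖ * (wt 0 j : ℝ)))
  rw [Pi.mul_apply, norm_mul]
  have h1 : ‖x i‖ * ‖y i‖ * (wt k i : ℝ) = ‖y i‖ * (‖x i‖ * (wt k i : ℝ)) := by ring
  rw [h1]
  exact mul_le_mul_of_nonneg_right (hb i) (by positivity)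

/-- the algebra -/
abbrev A : Type := KotheAlgebra PP isKotheAlgebra

/-- the seminorms -/
noncomputable def N (k : ℕ) : Seminorm ℂ A := KotheAlgebra.sem PP isKotheAlgebra ⟨wt k, wt_mem k⟩

theorem N_apply (k : ℕ) (x : A) : N k x = ∑' i, ‖x.1 i‖ * (w i.1 : ℝ) ^ k := by
  show ∑' i, ‖x.1 i‖ * ((wt k i : ℝ≥0) : ℝ) = _
  simp only [wt_coe]

theorem summ (k : ℕ) (x : A) : Summable fun i => ‖x.1 i‖ * (w i.1 : ℝ) ^ k := by
  have := x.2 (wt k) (wt_mem k)
  simpa only [wt_coe] using this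

theorem N_mono {k l : ℕ} (h : k ≤ l) (x : A) : N k x ≤ N l x := by
  rw [N_apply, N_apply]
  refine Summable.tsum_le_tsum (fun i => ?_) (summ k x) (summ l x)
  have h1 : (1 : ℝ) ≤ (w i.1 : ℝ) := by exact_mod_cast w_pos i.1
  exact mul_le_mul_of_nonneg_left (pow_le_pow_right₀ h1 h) (norm_nonneg _)

theorem withSeminorms : WithSeminorms (KotheAlgebra.sem PP isKotheAlgebra) := ⟨rfl⟩

theorem sup_le (s : Finset PP) : ∃ k, s.sup (KotheAlgebra.sem PP isKotheAlgebra) ≤ N k := by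
  classical
  induction s using Finset.induction_on with
  | empty => exact ⟨0, by rw [Finset.sup_empty]; exact bot_le⟩
  | insert p s _ ih =>
    obtain ⟨k, hk⟩ := ih
    obtain ⟨p, l, rfl⟩ := p
    refine ⟨max k l, ?_⟩
    rw [Finset.sup_insert]
    refine _root_.sup_le ?_ ?_
    · exact fun x => N_mono (le_max_right _ _) x
    · exact hk.trans fun x => N_mono (le_max_left _ _) x

theorem nhds_zero {U : Set A} (hU : U ∈ 𝓝 (0 : A)) :
    ∃ k : ℕ, ∃ ε > 0, ∀ x : A, N k x < ε → x ∈ U := by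
  rw [withSeminorms.mem_nhds_iff] at hU
  obtain ⟨s, ε, hε, hs⟩ := hU
  obtain ⟨k, hk⟩ := sup_le s
  refine ⟨k, ε, hε, fun x hx => hs ?_⟩
  rw [Seminorm.mem_ball, sub_zero]
  exact lt_of_le_of_lt (hk x) hx

theorem N_continuous (k : ℕ) : Continuous (N k) := withSeminorms.continuous_seminorm _

instance : IsTopologicalAddGroup A := withSeminorms.topologicalAddGroup

theorem tendsto_of {u : ℕ → A} {y : A} (h : ∀ k, Tendsto (fun n => N k (u n - y)) atTop (𝓝 0)) :
    Tendsto u atTop (𝓝 y) := by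
  rw [withSeminorms.tendsto_nhds]
  rintro ⟨p, k, rfl⟩ ε hε
  exact (h k).eventually_lt_const hε

/-- Bilinear maps and seminorm products. -/
theorem tendsto_bilin {X : Type*} [AddCommGroup X] [Module ℂ X] [TopologicalSpace X]
    (B : A → A → X) (hB : Continuous fun z : A × A => B z.1 z.2)
    (hB0 : B 0 0 = 0) (hBs : ∀ (t : ℂ) (a b : A), t ≠ 0 → B (t • a) (t⁻¹ • b) = B a b)
    (a b : ℕ → A) (h : ∀ k, Tendsto (fun n => N k (a n) * N k (b n)) atTop (𝓝 0)) :
    Tendsto (fun n => B (a n) (b n)) atTop (𝓝 0) := by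
  rw [tendsto_def]
  intro U hU
  have h1 : (fun z : A × A => B z.1 z.2) ⁻¹' U ∈ 𝓝 ((0 : A), (0 : A)) := by
    apply hB.continuousAt
    show U ∈ 𝓝 (B 0 0)
    rw [hB0]; exact hU
  rw [nhds_prod_eq, mem_prod_iff] at h1
  obtain ⟨V1, hV1, V2, hV2, hV⟩ := h1
  obtain ⟨k1, ε1, hε1, h1⟩ := nhds_zero hV1
  obtain ⟨k2, ε2, hε2, h2⟩ := nhds_zero hV2
  set k := max k1 k2
  set ε := min ε1 ε2
  have hε : 0 < ε := lt_min hε1 hε2
  have hU' : ∀ x y : A, N k x < ε → N k y < ε → B x y ∈ U := by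
    intro x y hx hy
    have hx' : x ∈ V1 := h1 x (lt_of_le_of_lt (N_mono (le_max_left _ _) x)
      (lt_of_lt_of_le hx (min_le_left _ _)))
    have hy' : y ∈ V2 := h2 y (lt_of_le_of_lt (N_mono (le_max_right _ _) y)
      (lt_of_lt_of_le hy (min_le_right _ _)))
    exact hV (Set.mk_mem_prod hx' hy')
  have hev := (h k).eventually_lt_const (show (0 : ℝ) < ε * ε by positivity)
  filter_upwards [hev] with n hn
  show B (a n) (b n) ∈ U
  have ha : 0 ≤ N k (a n) := apply_nonneg _ _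
  have hb : 0 ≤ N k (b n) := apply_nonneg _ _
  obtain ⟨t, ht, h3, h4⟩ : ∃ t : ℝ, 0 < t ∧ t * N k (a n) < ε ∧ t⁻¹ * N k (b n) < ε := by
    rcases ha.eq_or_lt with ha0 | ha0
    · refine ⟨(N k (b n) + 1) / ε, by positivity, by rw [← ha0]; simpa using hε, ?_⟩
      rw [inv_div, div_mul_eq_mul_div, div_lt_iff₀ (by positivity)]
      nlinarith
    · obtain ⟨t, h3, h4⟩ := exists_between (show N k (b n) / ε < ε / N k (a n) by
        rw [div_lt_div_iff₀ hε ha0]
        linarith)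
      have ht : 0 < t := lt_of_le_of_lt (by positivity) h3
      refine ⟨t, ht, ?_, ?_⟩
      · rwa [lt_div_iff₀ ha0] at h4
      · rw [div_lt_iff₀ hε] at h3
        rw [inv_mul_lt_iff₀ ht]
        exact h3
  have ht0 : (t : ℂ) ≠ 0 := by exact_mod_cast ht.ne'
  rw [← hBs (t : ℂ) (a n) (b n) ht0]
  apply hU'
  · rw [map_smul_eq_mul, Complex.norm_real, Real.norm_of_nonneg ht.le]
    exact h3
  · rw [map_smul_eq_mul, norm_inv, Complex.norm_real, Real.norm_of_nonneg ht.le]
    exact h4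

theorem mem_of_finite {x : Idx → ℂ} (s : Finset Idx) (hs : ∀ i ∉ s, x i = 0) :
    x ∈ kotheSubalgebra PP isKotheAlgebra := by
  intro p _
  apply summable_of_ne_finset_zero (s := s)
  intro i hi
  rw [hs i hi]
  simp

/-- finite index sets -/
def F (n : ℕ) : Finset Idx := (Finset.range n).sigma fun _ => Finset.univ

theorem mem_F (n : ℕ) (i : Idx) : i ∈ F n ↔ i.1 < n := by
  simp [F]

/-- idempotents -/
noncomputable def e (i : Idx) : A := by
  classical
  exact ⟨Pi.single i 1, mem_of_finite {i} (fun j hj => by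
    rw [Finset.mem_singleton] at hj
    exact Pi.single_eq_of_ne hj _)⟩

noncomputable def E (n : ℕ) : A := ∑ i ∈ F n, e i

theorem val_add (x y : A) : (x + y).1 = x.1 + y.1 := rfl
theorem val_mul (x y : A) : (x * y).1 = x.1 * y.1 := rfl
theorem val_sub (x y : A) : (x - y).1 = x.1 - y.1 := rfl
theorem val_smul (c : ℂ) (x : A) : (c • x).1 = c • x.1 := rfl
theorem val_zero : (0 : A).1 = 0 := rfl

theorem e_val (i : Idx) : (e i).1 = by classical exact Pi.single i 1 := rfl

theorem val_sum (s : Finset Idx) (f : Idx → A) (j : Idx) :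
    (∑ i ∈ s, f i).1 j = ∑ i ∈ s, (f i).1 j := by
  classical
  induction s using Finset.induction_on with
  | empty => rfl
  | insert a s ha ih =>
    rw [Finset.sum_insert ha, Finset.sum_insert ha, val_add, Pi.add_apply, ih]

theorem E_val (n : ℕ) (j : Idx) : (E n).1 j = if j.1 < n then 1 else 0 := by
  classical
  rw [E, val_sum]
  simp only [e_val, Pi.single_apply]
  rw [Finset.sum_ite_eq]
  simp only [mem_F]

theorem mul_e (a : A) (i : Idx) : a * e i = a.1 i • e i := by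
  classical
  apply Subtype.ext
  funext j
  rw [val_mul, val_smul, Pi.mul_apply, Pi.smul_apply, e_val, Pi.single_apply, smul_eq_mul]
  split_ifs with h
  · rw [h]
  · simp

theorem e_mul_e (i : Idx) : e i * e i = e i := by
  classical
  rw [mul_e]
  have : (e i).1 i = 1 := by rw [e_val, Pi.single_eq_same]
  rw [this, one_smul]

theorem E_mul_E (n : ℕ) : E n * E n = E n := by
  apply Subtype.ext
  funext j
  rw [val_mul, Pi.mul_apply, E_val]
  split_ifs <;> simp

theorem N_e (k : ℕ) (i : Idx) : N k (e i) = (w i.1 : ℝ) ^ k := by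
  classical
  rw [N_apply, tsum_eq_single i]
  · rw [e_val, Pi.single_eq_same]; simp
  · intro j hj
    rw [e_val, Pi.single_eq_of_ne hj]; simp

theorem N_E (k n : ℕ) : N k (E n) = ∑ l ∈ Finset.range n, (w l : ℝ) ^ (l + k) := by
  rw [N_apply, tsum_eq_sum (s := F n)]
  · rw [F, Finset.sum_sigma]
    apply Finset.sum_congr rfl
    intro l hl
    rw [Finset.mem_range] at hl
    have : ∀ x : Fin (w l ^ l), ‖(E n).1 ⟨l, x⟩‖ * (w l : ℝ) ^ k = (w l : ℝ) ^ k := by
      intro x
      rw [E_val]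
      simp [hl]
    simp only [this]
    rw [Finset.sum_const, Finset.card_univ, Fintype.card_fin, nsmul_eq_mul, Nat.cast_pow, pow_add]
  · intro i hi
    rw [mem_F] at hi
    rw [E_val]
    simp [hi]

theorem N_tail (k n : ℕ) (a : A) : N k (a - E n * a) ≤ N (k + 1) a / w n := by
  have hw : (0 : ℝ) < w n := by exact_mod_cast w_pos n
  rw [le_div_iff₀ hw, N_apply, N_apply, ← tsum_mul_right]
  refine Summable.tsum_le_tsum (fun i => ?_) ((summ k _).mul_right _) (summ (k + 1) a)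
  rw [val_sub, val_mul, Pi.sub_apply, Pi.mul_apply, E_val]
  split_ifs with h
  · simp
    positivity
  · have h1 : (w n : ℝ) ≤ w i.1 := by exact_mod_cast w_mono (by omega)
    rw [zero_mul, sub_zero, mul_assoc, pow_succ]
    exact mul_le_mul_of_nonneg_left (mul_le_mul_of_nonneg_left h1 (by positivity)) (norm_nonneg _)

theorem tail_tendsto (k : ℕ) (a : A) : Tendsto (fun n => N k (a - E n * a)) atTop (𝓝 0) := by
  have h1 : Tendsto (fun n : ℕ => N (k + 1) a / (n : ℝ)) atTop (𝓝 0) :=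
    tendsto_const_div_atTop_nhds_zero_nat _
  refine squeeze_zero' (Eventually.of_forall fun n => apply_nonneg _ _) ?_ h1
  filter_upwards [eventually_gt_atTop 0] with n hn
  refine (N_tail k n a).trans ?_
  have h2 : (0 : ℝ) < n := by exact_mod_cast hn
  have h3 : (n : ℝ) ≤ w n := by
    have := w_ge n
    have h4 : n ≤ (n + 1) ^ 2 := by nlinarith
    exact_mod_cast le_trans h4 this
  exact div_le_div_of_nonneg_left (apply_nonneg _ _) h2 h3

theorem prod_tendsto (k : ℕ) (a : A) :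
    Tendsto (fun n => N k (a - E n * a) * N k (E n)) atTop (𝓝 0) := by
  have h1 : Tendsto (fun n : ℕ => N (k + 1) a / (n : ℝ)) atTop (𝓝 0) :=
    tendsto_const_div_atTop_nhds_zero_nat _
  refine squeeze_zero' (Eventually.of_forall fun n => mul_nonneg (apply_nonneg _ _)
    (apply_nonneg _ _)) ?_ h1
  filter_upwards [eventually_ge_atTop (k + 1)] with n hn
  obtain ⟨m, rfl⟩ : ∃ m, n = m + 1 := ⟨n - 1, by omega⟩
  have hw : (0 : ℝ) < w (m + 1) := by exact_mod_cast w_pos (m + 1)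
  have hm : (0 : ℝ) < ((m + 1 : ℕ) : ℝ) := by positivity
  have h2 : ((m + 1 : ℕ) : ℝ) * N k (E (m + 1)) ≤ w (m + 1) := by
    have h3 : N k (E (m + 1)) ≤ N (m + 1) (E (m + 1)) := N_mono (by omega) _
    rw [N_E (m + 1) (m + 1)] at h3
    have h4 := w_sum m
    have h5 : (((m + 1) * ∑ l ∈ Finset.range (m + 1), w l ^ (l + (m + 1)) : ℕ) : ℝ) ≤
        (w (m + 1) : ℝ) := by exact_mod_cast h4
    push_cast at h5
    refine le_trans (mul_le_mul_of_nonneg_left h3 hm.le) ?_
    push_cast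
    exact h5
  calc N k (a - E (m + 1) * a) * N k (E (m + 1))
      ≤ (N (k + 1) a / w (m + 1)) * (w (m + 1) / ((m + 1 : ℕ) : ℝ)) := by
        apply mul_le_mul (N_tail k _ a) _ (apply_nonneg _ _) (by
          exact div_nonneg (apply_nonneg _ _) hw.le)
        rw [le_div_iff₀ hm]
        linarith
    _ = N (k + 1) a / ((m + 1 : ℕ) : ℝ) := by
        field_simp

end Pool.Agent.MP_07c133_an
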