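import Pool.Agent.MP_07c133_an.Example

set_option autoImplicit false

open scoped NNReal Topology Uniformity
open Filter

namespace Pool.Agent.MP_07c133_an

/-- The Köthe algebra `A` is approximately contractible. -/
theorem approxContractible : ApproxContractible A := by
  intro X _ _ _ hX M D hD hder
  have := hX.add
  have := hX.smul
  have := hX.t2
  let x : ℕ → X := fun n => -D (E n) + M.l (E n) (D (E n)) + ∑ i ∈ F n, M.l (e i) (D (e i))
  -- the algebraic identity
  have hr : ∀ a b : A, M.r a (D b) = D (b * a) - M.l b (D a) := by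
    intro a b
    rw [hder b a]; abel
  have key : ∀ (n : ℕ) (a : A), M.l a (x n) - M.r a (x n) =
      D (E n * a) - M.l (a - E n * a) (D (E n)) + M.l (E n) (D (a - E n * a)) := by
    intro n a
    have hEa : ∑ i ∈ F n, M.l (e i) (D a) = M.l (E n) (D a) := by
      rw [E, map_sum, LinearMap.sum_apply]
    have h1 : M.l a (x n) = -M.l a (D (E n)) + M.l (E n * a) (D (E n)) +
        ∑ i ∈ F n, a.1 i • M.l (e i) (D (e i)) := by
      simp only [x]
      rw [map_add, map_add, map_neg, map_sum, ← M.l_mul, mul_comm a (E n)]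
      congr 1
      apply Finset.sum_congr rfl
      intro i _
      rw [← M.l_mul, mul_e, map_smul, LinearMap.smul_apply]
    have h2 : M.r a (x n) = -(D (E n * a) - M.l (E n) (D a)) +
        (M.l (E n) (D (E n * a)) - M.l (E n) (D a)) +
        (∑ i ∈ F n, a.1 i • M.l (e i) (D (e i)) - M.l (E n) (D a)) := by
      simp only [x]
      rw [map_add, map_add, map_neg, map_sum, hr, M.l_r, hr, map_sub, ← M.l_mul, E_mul_E]
      congr 1
      rw [← hEa, ← Finset.sum_sub_distrib]
      apply Finset.sum_congr rfl
      intro i _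
      rw [M.l_r, hr, map_sub, ← M.l_mul, e_mul_e, mul_comm (e i) a, mul_e, map_smul, map_smul]
    rw [h1, h2, map_sub M.l, LinearMap.sub_apply, map_sub D, map_sub (M.l (E n))]
    abel
  refine ⟨ℕ, inferInstance, inferInstance, inferInstance, x, fun a => ?_⟩
  have h1 : Tendsto (fun n => D (E n * a)) atTop (𝓝 (D a)) := by
    apply (hD.tendsto a).comp
    apply tendsto_of
    intro k
    have : (fun n => N k (E n * a - a)) = fun n => N k (a - E n * a) := by
      funext n
      rw [← map_neg_eq_map, neg_sub]
    rw [this]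
    exact tail_tendsto k a
  have h2 : Tendsto (fun n => M.l (a - E n * a) (D (E n))) atTop (𝓝 0) := by
    apply tendsto_bilin (fun u v => M.l u (D v))
    · exact M.l_cont.comp (continuous_fst.prodMk (hD.comp continuous_snd))
    · simp
    · intro t u v ht
      simp only [map_smul, LinearMap.smul_apply, smul_smul]
      rw [mul_comm, mul_inv_cancel₀ ht, one_smul]
    · intro k
      exact prod_tendsto k a
  have h3 : Tendsto (fun n => M.l (E n) (D (a - E n * a))) atTop (𝓝 0) := by
    apply tendsto_bilin (fun u v => M.l u (D v))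
    · exact M.l_cont.comp (continuous_fst.prodMk (hD.comp continuous_snd))
    · simp
    · intro t u v ht
      simp only [map_smul, LinearMap.smul_apply, smul_smul]
      rw [mul_comm, mul_inv_cancel₀ ht, one_smul]
    · intro k
      have := prod_tendsto k a
      simpa only [mul_comm] using this
  have h4 := (h1.sub h2).add h3
  rw [sub_zero, add_zero] at h4
  simpa only [key] using h4

/-- coordinates are bounded for `N 0` -/
noncomputable def coordL (i : Idx) : SemiSpace (N 0) →L[ℂ] ℂ :=
  LinearMap.mkContinuous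
    { toFun := fun x : SemiSpace (N 0) => (show A from x).1 i
      map_add' := fun _ _ => rfl
      map_smul' := fun _ _ => rfl } 1 (by
    intro x
    show ‖(show A from x).1 i‖ ≤ 1 * N 0 (show A from x)
    rw [one_mul, N_apply]
    have := (summ 0 (show A from x)).le_tsum i (fun j _ => by positivity)
    simpa using this)

theorem coordL_apply (i : Idx) (x : A) : coordL i (toSemi (N 0) x) = x.1 i := rfl

noncomputable def coordC (i : Idx) : LocalBanach (N 0) →L[ℂ] ℂ :=
  (coordL i).extend (UniformSpace.Completion.toComplL : SemiSpace (N 0) →L[ℂ] _)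

theorem coordC_apply (i : Idx) (x : A) :
    coordC i (toSemi (N 0) x : LocalBanach (N 0)) = x.1 i := by
  have h := ContinuousLinearMap.extend_eq (coordL i)
    (e := (UniformSpace.Completion.toComplL : SemiSpace (N 0) →L[ℂ] LocalBanach (N 0)))
    (by
      show DenseRange ((↑) : SemiSpace (N 0) → UniformSpace.Completion (SemiSpace (N 0)))
      exact UniformSpace.Completion.denseRange_coe)
    (by
      show IsUniformInducing ((↑) : SemiSpace (N 0) → UniformSpace.Completion (SemiSpace (N 0)))
      exact UniformSpace.Completion.isUniformInducing_coe _) (toSemi (N 0) x)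
  rw [coordL_apply] at h
  exact h

theorem sum_coordC (s : Finset Idx) (y : LocalBanach (N 0)) :
    ∑ i ∈ s, ‖coordC i y‖ ≤ ‖y‖ := by
  induction y using UniformSpace.Completion.induction_on with
  | hp =>
    apply isClosed_le
    · exact continuous_finsetSum _ fun i _ => (coordC i).continuous.norm
    · exact continuous_norm
  | ih x =>
    have h1 : ∀ i, coordC i ((x : SemiSpace (N 0)) : LocalBanach (N 0)) = (show A from x).1 i :=
      fun i => coordC_apply i x
    simp only [h1]
    rw [UniformSpace.Completion.norm_coe]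
    show ∑ i ∈ s, ‖(show A from x).1 i‖ ≤ N 0 (show A from x)
    rw [N_apply]
    have := (summ 0 (show A from x)).sum_le_tsum s (fun i _ => by positivity)
    simpa using this

/-- block -/
def blk (n : ℕ) : Finset Idx := ({n} : Finset ℕ).sigma fun _ => Finset.univ

theorem mem_blk {n : ℕ} {i : Idx} (h : i ∈ blk n) : i.1 = n := by
  simpa [blk] using h

theorem card_blk (n : ℕ) : (blk n).card = w n ^ n := by
  simp [blk]

theorem not_nuclear : ¬ IsNuclearSpace A := by
  intro hN
  obtain ⟨q, hq, -, T, hT, f, y, hsum, hf⟩ := hN (N 0) (N_continuous 0)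
  obtain ⟨s, C, hC0, hC⟩ := Seminorm.bound_of_continuous withSeminorms q hq
  obtain ⟨l, hl⟩ := sup_le s
  have hqe : ∀ i : Idx, q (e i) ≤ C * (w i.1 : ℝ) ^ l := by
    intro i
    have h1 := hC (e i)
    have h2 := hl (e i)
    rw [N_e] at h2
    refine h1.trans ?_
    exact mul_le_mul_of_nonneg_left h2 C.2
  set S : ℝ := ∑' n, ‖f n‖ * ‖y n‖ with hS
  have hS0 : 0 ≤ S := tsum_nonneg fun n => by positivity
  -- the trace inequality
  have trace : ∀ n : ℕ, (w n : ℝ) ^ n ≤ C * (w n : ℝ) ^ l * S := by
    intro n
    have h1 : ∀ i : Idx, HasSum (fun m => f m (toSemi q (e i) : LocalBanach q) * coordC i (y m)) 1 := by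
      intro i
      have h2 := (hf (toSemi q (e i) : LocalBanach q)).mapL (coordC i)
      rw [hT, coordC_apply] at h2
      have h3 : (e i).1 i = 1 := by classical rw [e_val, Pi.single_eq_same]
      rw [h3] at h2
      simpa only [map_smul, smul_eq_mul] using h2
    have h2 : HasSum (fun m => ∑ i ∈ blk n, f m (toSemi q (e i) : LocalBanach q) * coordC i (y m))
        (∑ i ∈ blk n, (1 : ℂ)) := hasSum_sum fun i _ => h1 i
    have h3 : ∀ m, ‖∑ i ∈ blk n, f m (toSemi q (e i) : LocalBanach q) * coordC i (y m)‖ ≤
        C * (w n : ℝ) ^ l * (‖f m‖ * ‖y m‖) := by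
      intro m
      calc ‖∑ i ∈ blk n, f m (toSemi q (e i) : LocalBanach q) * coordC i (y m)‖
          ≤ ∑ i ∈ blk n, ‖f m (toSemi q (e i) : LocalBanach q) * coordC i (y m)‖ :=
            norm_sum_le _ _
        _ ≤ ∑ i ∈ blk n, (‖f m‖ * (C * (w n : ℝ) ^ l)) * ‖coordC i (y m)‖ := by
            apply Finset.sum_le_sum
            intro i hi
            rw [norm_mul]
            apply mul_le_mul_of_nonneg_right _ (norm_nonneg _)
            refine ((f m).le_opNorm _).trans ?_
            apply mul_le_mul_of_nonneg_left _ (norm_nonneg _)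
            rw [UniformSpace.Completion.norm_coe]
            have := hqe i
            rw [mem_blk hi] at this
            exact this
        _ = (‖f m‖ * (C * (w n : ℝ) ^ l)) * ∑ i ∈ blk n, ‖coordC i (y m)‖ := by
            rw [Finset.mul_sum]
        _ ≤ (‖f m‖ * (C * (w n : ℝ) ^ l)) * ‖y m‖ :=
            mul_le_mul_of_nonneg_left (sum_coordC _ _) (by positivity)
        _ = C * (w n : ℝ) ^ l * (‖f m‖ * ‖y m‖) := by ring
    have h4 : Summable fun m => C * (w n : ℝ) ^ l * (‖f m‖ * ‖y m‖) := hsum.mul_left _
    have h5 := tsum_of_norm_bounded h4.hasSum h3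
    rw [h2.tsum_eq, tsum_mul_left] at h5
    simpa [card_blk] using h5
  -- contradiction for large `n`
  obtain ⟨n0, hn0⟩ := exists_nat_gt ((C : ℝ) * S)
  set n := max n0 (l + 1) with hn
  have hw1 : (1 : ℝ) ≤ w n := by exact_mod_cast w_pos n
  have hw0 : (0 : ℝ) < w n := by linarith
  have h1 : (w n : ℝ) ^ (l + 1) ≤ (w n : ℝ) ^ n := pow_le_pow_right₀ hw1 (le_max_right _ _)
  have h2 := trace n
  have h3 : (w n : ℝ) * (w n : ℝ) ^ l ≤ (C * S) * (w n : ℝ) ^ l := by
    calc (w n : ℝ) * (w n : ℝ) ^ l = (w n : ℝ) ^ (l + 1) := by ring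
      _ ≤ (w n : ℝ) ^ n := h1
      _ ≤ C * (w n : ℝ) ^ l * S := h2
      _ = (C * S) * (w n : ℝ) ^ l := by ring
  have h4 : (w n : ℝ) ≤ C * S := le_of_mul_le_mul_right h3 (by positivity)
  have h5 : (n0 : ℝ) ≤ w n := by
    have h6 : n0 ≤ n := le_max_left _ _
    have h7 : n ≤ w n := by
      have := w_ge n
      nlinarith
    exact_mod_cast h6.trans h7
  linarith

end Pool.Agent.MP_07c133_an
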